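import Mathlib
import Pool.Prelude.Def_F_458e953d
import Pool.Agent.Lib.Cx.GraphDefs

namespace Pool.Agent.MP_07a0c6_lc

/-- A colouring: adjacent vertices get different natural numbers. -/
def IsColoring {V : Type} (G : SimpleGraph V) (c : V → ℕ) : Prop :=
  ∀ u v, G.Adj u v → c u ≠ c v

/-- An up-color dominating set for `(G, c)`. -/
def IsUpDom {V : Type} (G : SimpleGraph V) (c : V → ℕ) (D : Finset V) : Prop :=
  (∀ d ∈ D, c d ≠ 0) ∧ ∀ v, v ∉ D → ∃ d ∈ D, G.Adj v d ∧ c v < c d

/-- The up-color domination weight: the least weight of an up-color dominating set, over all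
colourings. -/
noncomputable def upWeight {V : Type} (G : SimpleGraph V) : ℕ :=
  sInf {w : ℕ | ∃ (c : V → ℕ) (D : Finset V),
    IsColoring G c ∧ IsUpDom G c D ∧ w = ∑ d ∈ D, c d}

/-- The intersection graph of a family of nonempty intervals of the real line. -/
def IsIntervalGraph {V : Type} (G : SimpleGraph V) : Prop :=
  ∃ I : V → Set ℝ, (∀ v, (I v).Nonempty ∧ (I v).OrdConnected) ∧
    ∀ u v, G.Adj u v ↔ u ≠ v ∧ (I u ∩ I v).Nonempty

open Classical in
/-- The decision problem UCW for a class of graphs: the code words of the pairs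
(adjacency matrix of `G`, `k` in binary) with `G` in the class, `k` positive and weight at most
`k`. -/
noncomputable def UCW (C : (n : ℕ) → SimpleGraph (Fin n) → Prop) : List Bool → Bool :=
  fun x => decide (∃ (n : ℕ) (G : SimpleGraph (Fin n)) (k : ℕ), C n G ∧ 0 < k ∧ upWeight G ≤ k ∧
    x = N487b59b3.bitEncode (Pool.Agent.Lib.Cx.adjRows G, k))

end Pool.Agent.MP_07a0c6_lc
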